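import Pool.Agent.H964.QC.Stm

/-! # Project QC (helper964): DD, bounds for the pair correlation sequence; CLN, the closeness sum -/

set_option autoImplicit false

open MeasureTheory ProbabilityTheory Filter Finset

namespace Pool.Agent.H71.QC

open Pool.Agent.H964.QC

lemma DD_eq (s : ℝ) (m n : ℕ) :
    DD s m n = rr (m + n) + s * ∑ i ∈ range n, rr (n - i) * DD s m i := by
  rw [DD, Fin.sum_univ_eq_sum_range (fun i => rr (n - i) * DD s m i) n]

lemma sum_refl (n : ℕ) : ∑ i ∈ range n, rr (n - i) = RR n := by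
  unfold RR
  refine Finset.sum_nbij' (fun i => n - i) (fun k => n - k) ?_ ?_ ?_ ?_ ?_
  · intro i hi
    rw [mem_range] at hi
    rw [mem_Icc]
    omega
  · intro k hk
    rw [mem_Icc] at hk
    rw [mem_range]
    omega
  · intro i hi
    rw [mem_range] at hi
    omega
  · intro k hk
    rw [mem_Icc] at hk
    omega
  · intro i _
    rfl

section
variable {s E : ℝ} {T : ℕ} (hpos : ∀ n : ℕ, 0 < rr n) (hup : ∀ n : ℕ, rr n ≤ 1 / (2 * (n : ℝ) + 1))
  (hanti : Antitone rr)

include hpos in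
lemma RR_mono : Monotone RR := by
  intro a b hab
  unfold RR
  exact Finset.sum_le_sum_of_subset_of_nonneg (Finset.Icc_subset_Icc_right hab)
    fun i _ _ => (hpos i).le

include hpos in
lemma RR_nonneg (n : ℕ) : 0 ≤ RR n := by
  unfold RR
  exact Finset.sum_nonneg fun i _ => (hpos i).le

include hpos in
lemma DD_nonneg (hs : 0 < s) (m n : ℕ) : 0 ≤ DD s m n := by
  induction n using Nat.strong_induction_on with
  | _ n ih =>
    rw [DD_eq]
    have : 0 ≤ ∑ i ∈ range n, rr (n - i) * DD s m i :=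
      Finset.sum_nonneg fun i hi => mul_nonneg (hpos _).le (ih i (mem_range.1 hi))
    have := hpos (m + n)
    positivity

lemma E_facts (hs : 0 < s) (h1 : s * RR T < 1) (hE : E = 1 / (1 - s * RR T)) (h0 : 0 ≤ RR T) :
    1 ≤ E ∧ E * (s * RR T) + 1 = E := by
  have h2 : 0 < 1 - s * RR T := by linarith
  have h3 : 0 ≤ s * RR T := by positivity
  constructor
  · rw [hE, le_div_iff₀ h2]
    linarith
  · rw [hE]
    field_simp
    ring

include hpos hanti in
/-- first bound -/
lemma DD_le (hs : 0 < s) (h1 : s * RR T < 1) (hE : E = 1 / (1 - s * RR T)) (m n : ℕ) (hn : n ≤ T) :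
    DD s m n ≤ E * rr m := by
  obtain ⟨hE1, hE2⟩ := E_facts hs h1 hE (RR_nonneg hpos T)
  induction n using Nat.strong_induction_on with
  | _ n ih =>
    rw [DD_eq]
    have h2 : ∑ i ∈ range n, rr (n - i) * DD s m i ≤ RR T * (E * rr m) := by
      calc ∑ i ∈ range n, rr (n - i) * DD s m i
          ≤ ∑ i ∈ range n, rr (n - i) * (E * rr m) :=
            Finset.sum_le_sum fun i hi => mul_le_mul_of_nonneg_left
              (ih i (mem_range.1 hi) ((mem_range.1 hi).le.trans hn)) (hpos _).le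
        _ = RR n * (E * rr m) := by rw [← Finset.sum_mul, sum_refl]
        _ ≤ RR T * (E * rr m) := by
            refine mul_le_mul_of_nonneg_right (RR_mono hpos hn) ?_
            have := hpos m
            positivity
    have h3 := mul_le_mul_of_nonneg_left h2 hs.le
    have h4 : rr (m + n) ≤ rr m := hanti (Nat.le_add_right m n)
    have h5 : s * (RR T * (E * rr m)) + rr m = E * rr m := by
      calc s * (RR T * (E * rr m)) + rr m = (E * (s * RR T) + 1) * rr m := by ring
        _ = _ := by rw [hE2]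
    linarith

include hpos hup in
/-- weighted bound -/
lemma nDD_le (hs : 0 < s) (h1 : s * RR T < 1) (hE : E = 1 / (1 - s * RR T)) (m n : ℕ)
    (hn : n ≤ T) :
    n * DD s m n ≤ E * (1 / 2 + s / 2 * ∑ i ∈ range n, DD s m i) := by
  obtain ⟨hE1, hE2⟩ := E_facts hs h1 hE (RR_nonneg hpos T)
  have hD := DD_nonneg (s := s) hpos hs m
  induction n using Nat.strong_induction_on with
  | _ n ih =>
    obtain ⟨B, hB⟩ : ∃ B, B = E * (1 / 2 + s / 2 * ∑ i ∈ range n, DD s m i) := ⟨_, rfl⟩
    have hB0 : 0 ≤ B := by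
      rw [hB]
      have : 0 ≤ ∑ i ∈ range n, DD s m i := Finset.sum_nonneg fun i _ => hD i
      positivity
    have hi : ∀ i ∈ range n, (i : ℝ) * DD s m i ≤ B := by
      intro i hi
      have hin := mem_range.1 hi
      refine (ih i hin (hin.le.trans hn)).trans ?_
      rw [hB]
      refine mul_le_mul_of_nonneg_left ?_ (by linarith)
      have h2 : ∑ j ∈ range i, DD s m j ≤ ∑ j ∈ range n, DD s m j :=
        Finset.sum_le_sum_of_subset_of_nonneg (Finset.range_mono hin.le) fun j _ _ => hD j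
      have := mul_le_mul_of_nonneg_left h2 (show 0 ≤ s / 2 by positivity)
      linarith
    have hk : ∀ k : ℕ, (k : ℝ) * rr k ≤ 1 / 2 := by
      intro k
      have h2 := mul_le_mul_of_nonneg_left (hup k) (Nat.cast_nonneg (α := ℝ) k)
      refine h2.trans ?_
      rw [mul_one_div, div_le_div_iff₀ (by positivity) (by norm_num)]
      linarith
    have h3 : (n : ℝ) * ∑ i ∈ range n, rr (n - i) * DD s m i ≤
        1 / 2 * ∑ i ∈ range n, DD s m i + RR T * B := by
      have h4 : ∀ i ∈ range n, (n : ℝ) * (rr (n - i) * DD s m i) ≤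
          1 / 2 * DD s m i + rr (n - i) * B := by
        intro i hi'
        have hin := mem_range.1 hi'
        have h5 : (n : ℝ) = ((n - i : ℕ) : ℝ) + i := by
          rw [Nat.cast_sub hin.le]
          ring
        have h6 := mul_le_mul_of_nonneg_right (hk (n - i)) (hD i)
        have h7 := mul_le_mul_of_nonneg_left (hi i hi') (hpos (n - i)).le
        calc (n : ℝ) * (rr (n - i) * DD s m i)
            = ((n - i : ℕ) : ℝ) * rr (n - i) * DD s m i + rr (n - i) * (i * DD s m i) := by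
              rw [h5]; simp only [Nat.cast_sub hin.le]; ring
          _ ≤ _ := add_le_add h6 h7
      rw [Finset.mul_sum]
      refine (Finset.sum_le_sum h4).trans ?_
      rw [Finset.sum_add_distrib, ← Finset.mul_sum, ← Finset.sum_mul, sum_refl]
      have := mul_le_mul_of_nonneg_right (RR_mono hpos hn) hB0
      linarith
    have h4 : (n : ℝ) * rr (m + n) ≤ 1 / 2 := by
      have h5 : (n : ℝ) * rr (m + n) ≤ ((m + n : ℕ) : ℝ) * rr (m + n) := by
        refine mul_le_mul_of_nonneg_right ?_ (hpos _).le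
        push_cast
        have : (0 : ℝ) ≤ m := Nat.cast_nonneg m
        linarith
      exact h5.trans (hk _)
    rw [← hB, DD_eq]
    have h5 := mul_le_mul_of_nonneg_left h3 hs.le
    have h6 : 1 / 2 + s / 2 * ∑ i ∈ range n, DD s m i + s * (RR T * B) = B := by
      have : B = E * (s * RR T) * (1 / 2 + s / 2 * ∑ i ∈ range n, DD s m i) +
          (1 / 2 + s / 2 * ∑ i ∈ range n, DD s m i) := by
        calc B = (E * (s * RR T) + 1) * (1 / 2 + s / 2 * ∑ i ∈ range n, DD s m i) := by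
              rw [hE2, hB]
          _ = _ := by ring
      calc _ = (1 / 2 + s / 2 * ∑ i ∈ range n, DD s m i) + s * RR T * B := by ring
        _ = (1 / 2 + s / 2 * ∑ i ∈ range n, DD s m i) +
            s * RR T * (E * (1 / 2 + s / 2 * ∑ i ∈ range n, DD s m i)) := by rw [← hB]
        _ = B := by linarith [this]
    calc (n : ℝ) * (rr (m + n) + s * ∑ i ∈ range n, rr (n - i) * DD s m i)
        = n * rr (m + n) + s * (n * ∑ i ∈ range n, rr (n - i) * DD s m i) := by ring
      _ ≤ B := by linarith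

include hpos in
/-- the sum -/
lemma sum_DD_le (hs : 0 < s) (h1 : s * RR T < 1) (hE : E = 1 / (1 - s * RR T)) (m n : ℕ)
    (hn : n ≤ T + 1) :
    ∑ i ∈ range n, DD s m i ≤ E * ∑ i ∈ range n, rr (m + i) := by
  have hD := DD_nonneg (s := s) hpos hs m
  have h2 : 0 < 1 - s * RR T := by linarith
  have h3 : ∑ i ∈ range n, DD s m i = ∑ i ∈ range n, rr (m + i) +
      s * ∑ i ∈ range n, ∑ j ∈ range i, rr (i - j) * DD s m j := by
    rw [Finset.mul_sum, ← Finset.sum_add_distrib]
    exact Finset.sum_congr rfl fun i _ => DD_eq s m i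
  have h4 : ∑ i ∈ range n, ∑ j ∈ range i, rr (i - j) * DD s m j =
      ∑ j ∈ range n, ∑ i ∈ Finset.Ioo j n, rr (i - j) * DD s m j := by
    refine Finset.sum_comm' fun i j => ?_
    rw [mem_range, mem_range, mem_range, Finset.mem_Ioo]
    omega
  have h5 : ∑ j ∈ range n, ∑ i ∈ Finset.Ioo j n, rr (i - j) * DD s m j ≤
      ∑ j ∈ range n, RR T * DD s m j := by
    refine Finset.sum_le_sum fun j hj => ?_
    rw [← Finset.sum_mul]
    refine mul_le_mul_of_nonneg_right ?_ (hD j)
    have h6 : ∑ i ∈ Finset.Ioo j n, rr (i - j) = ∑ k ∈ Finset.Icc 1 (n - 1 - j), rr k := by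
      refine Finset.sum_nbij' (fun i => i - j) (fun k => k + j) ?_ ?_ ?_ ?_ ?_
      · intro i hi
        rw [Finset.mem_Ioo] at hi
        rw [mem_Icc]
        omega
      · intro k hk
        rw [mem_Icc] at hk
        rw [Finset.mem_Ioo]
        omega
      · intro i hi
        rw [Finset.mem_Ioo] at hi
        omega
      · intro k hk
        omega
      · intro i _
        rfl
    rw [h6]
    exact Finset.sum_le_sum_of_subset_of_nonneg (Finset.Icc_subset_Icc_right (by omega))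
      fun i _ _ => (hpos i).le
  rw [← Finset.mul_sum] at h5
  obtain ⟨S, hS⟩ : ∃ S, S = ∑ i ∈ range n, DD s m i := ⟨_, rfl⟩
  obtain ⟨Q, hQ⟩ : ∃ Q, Q = ∑ i ∈ range n, rr (m + i) := ⟨_, rfl⟩
  rw [h4] at h3
  rw [← hS] at h3 h5
  rw [← hQ] at h3
  rw [← hS, ← hQ, hE, one_div_mul_eq_div, le_div_iff₀ h2]
  have h7 := mul_le_mul_of_nonneg_left h5 hs.le
  nlinarith

end

/-- the sum of the return probabilities from `m` -/
lemma sum_rr_le (hR : S_RR) (m n : ℕ) (hm : 1 ≤ m) :
    ∑ i ∈ range (n + 1), rr (m + i) ≤ 1 / 2 + 1 / 2 * Real.log (1 + (n : ℝ) / m) := by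
  obtain ⟨hpos, hup, _, hanti, hlog, _, _⟩ := hR
  have hm0 : (0 : ℝ) < m := by exact_mod_cast hm
  have h1 : ∑ i ∈ range (n + 1), rr (m + i) = rr m + (RR (m + n) - RR m) := by
    induction n with
    | zero => simp
    | succ k ih =>
      rw [Finset.sum_range_succ, ih]
      have h2 : RR (m + (k + 1)) = RR (m + k) + rr (m + (k + 1)) := by
        unfold RR
        rw [← add_assoc, Finset.sum_Icc_succ_top (by omega)]
      rw [h2]
      ring
  rw [h1]
  have h2 := hlog m (m + n) hm (Nat.le_add_right _ _)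
  have h3 : (((m + n : ℕ) : ℝ)) / m = 1 + (n : ℝ) / m := by
    push_cast
    field_simp
  rw [h3] at h2
  have h4 : rr m ≤ 1 / 2 := by
    refine (hup m).trans ?_
    rw [div_le_div_iff₀ (by positivity) (by norm_num)]
    have : (1 : ℝ) ≤ m := by exact_mod_cast hm
    linarith
  linarith

/-- the precise bounds -/
theorem DD_bounds (hR : S_RR) {s E : ℝ} {T : ℕ} (hs : 0 < s) (h1 : s * RR T < 1)
    (hE : E = 1 / (1 - s * RR T)) (hsE : s * E ≤ 1) (m n : ℕ) (hm : 1 ≤ m) (hn : n ≤ T) :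
    0 ≤ DD s m n ∧ DD s m n ≤ E / m ∧
      (1 ≤ n → DD s m n ≤ E / n * (1 + s * E * Real.log (1 + (n : ℝ) / m))) ∧
      ∑ i ∈ range (n + 1), DD s m i ≤ E * (1 / 2 + 1 / 2 * Real.log (1 + (n : ℝ) / m)) := by
  have hR' := hR
  obtain ⟨hpos, hup, _, hanti, hlog, _, _⟩ := hR'
  obtain ⟨hE1, hE2⟩ := E_facts hs h1 hE (RR_nonneg hpos T)
  have hm0 : (0 : ℝ) < m := by exact_mod_cast hm
  have hlog0 : 0 ≤ Real.log (1 + (n : ℝ) / m) := Real.log_nonneg (by
    have : 0 ≤ (n : ℝ) / m := by positivity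
    linarith)
  have hsum : ∑ i ∈ range (n + 1), DD s m i ≤
      E * (1 / 2 + 1 / 2 * Real.log (1 + (n : ℝ) / m)) :=
    (sum_DD_le hpos hs h1 hE m (n + 1) (by omega)).trans
      (mul_le_mul_of_nonneg_left (sum_rr_le hR m n hm) (by linarith))
  refine ⟨DD_nonneg hpos hs m n, ?_, ?_, hsum⟩
  · refine (DD_le hpos hanti hs h1 hE m n hn).trans ?_
    rw [div_eq_mul_one_div]
    refine mul_le_mul_of_nonneg_left ((hup m).trans ?_) (by linarith)
    exact one_div_le_one_div_of_le hm0 (by linarith)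
  · intro hn1
    have hn0 : (0 : ℝ) < n := by exact_mod_cast hn1
    have h2 := nDD_le hpos hup hs h1 hE m n hn
    have h3 : ∑ i ∈ range n, DD s m i ≤ ∑ i ∈ range (n + 1), DD s m i :=
      Finset.sum_le_sum_of_subset_of_nonneg (Finset.range_mono (Nat.le_succ n))
        fun i _ _ => DD_nonneg hpos hs m i
    have h4 : s / 2 * ∑ i ∈ range n, DD s m i ≤
        1 / 4 + s * E * Real.log (1 + (n : ℝ) / m) / 2 := by
      have h5 := mul_le_mul_of_nonneg_left (h3.trans hsum) (show 0 ≤ s / 2 by positivity)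
      refine h5.trans ?_
      have h6 : 0 ≤ s * E * Real.log (1 + (n : ℝ) / m) := by
        have : 0 ≤ E := by linarith
        positivity
      have h7 : s / 2 * (E * (1 / 2 + 1 / 2 * Real.log (1 + (n : ℝ) / m))) =
        s * E / 4 + s * E * Real.log (1 + (n : ℝ) / m) / 4 := by ring
      rw [h7]
      linarith
    rw [div_mul_eq_mul_div, le_div_iff₀ hn0, mul_comm]
    refine h2.trans (mul_le_mul_of_nonneg_left ?_ (by linarith))
    have h6 : 0 ≤ s * E * Real.log (1 + (n : ℝ) / m) := by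
      have : 0 ≤ E := by linarith
      positivity
    linarith

theorem t_DD : S_RR → S_UU → S_DD := by
  intro hR _
  refine ⟨1, le_rfl, ?_⟩
  intro s E T hs h1 hE hC m n hm hn
  rw [one_mul] at hC
  obtain ⟨a1, a2, a3, _⟩ := DD_bounds hR hs h1 hE hC m n hm hn
  refine ⟨a1, ?_, ?_⟩
  · rw [one_mul]
    exact a2
  · rw [one_mul]
    exact a3

/-! ### CLN -/

/-- the fourth root -/
noncomputable def q4 (x : ℝ) : ℝ := Real.sqrt (Real.sqrt x)

lemma q4_pow {x : ℝ} (hx : 0 ≤ x) : q4 x ^ 4 = x := by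
  unfold q4
  have h1 : Real.sqrt (Real.sqrt x) ^ 4 = (Real.sqrt (Real.sqrt x) ^ 2) ^ 2 := by ring
  rw [h1, Real.sq_sqrt (Real.sqrt_nonneg _), Real.sq_sqrt hx]

lemma q4_sq {x : ℝ} : q4 x ^ 2 = Real.sqrt x := by
  unfold q4
  rw [Real.sq_sqrt (Real.sqrt_nonneg _)]

lemma q4_pos {x : ℝ} (hx : 0 < x) : 0 < q4 x := Real.sqrt_pos.2 (Real.sqrt_pos.2 hx)

lemma q4_nonneg (x : ℝ) : 0 ≤ q4 x := Real.sqrt_nonneg _

lemma log_le_q4 {x : ℝ} (hx : 0 ≤ x) : Real.log (1 + x) ≤ 4 * q4 x := by
  have h0 := q4_nonneg x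
  have h1 : 1 + x ≤ (1 + q4 x) ^ 4 := by
    have h2 := q4_pow hx
    have h3 : (1 + q4 x) ^ 4 = 1 + 4 * q4 x + 6 * q4 x ^ 2 + 4 * q4 x ^ 3 + q4 x ^ 4 := by ring
    rw [h3, h2]
    have : 0 ≤ 4 * q4 x + 6 * q4 x ^ 2 + 4 * q4 x ^ 3 := by positivity
    linarith
  have h2 := Real.log_le_log (by positivity : (0 : ℝ) < 1 + x) h1
  rw [Real.log_pow] at h2
  have h3 := Real.log_le_sub_one_of_pos (show 0 < 1 + q4 x by positivity)
  push_cast at h2
  linarith

lemma sum_sqrt (M : ℕ) : ∑ m ∈ Finset.Icc 1 M, 1 / Real.sqrt m ≤ 2 * Real.sqrt M := by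
  induction M with
  | zero => simp
  | succ k ih =>
    rw [Finset.sum_Icc_succ_top (by omega)]
    obtain ⟨a, ha⟩ : ∃ a, a = Real.sqrt ((k + 1 : ℕ) : ℝ) := ⟨_, rfl⟩
    obtain ⟨b, hb⟩ : ∃ b, b = Real.sqrt (k : ℝ) := ⟨_, rfl⟩
    rw [← ha]
    rw [← hb] at ih
    have ha0 : 0 < a := by rw [ha]; exact Real.sqrt_pos.2 (by positivity)
    have hb0 : 0 ≤ b := by rw [hb]; exact Real.sqrt_nonneg _
    have ha2 : a ^ 2 = k + 1 := by rw [ha, Real.sq_sqrt (by positivity)]; push_cast; ring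
    have hb2 : b ^ 2 = k := by rw [hb, Real.sq_sqrt (by positivity)]
    have h1 : 1 / a ≤ 2 * a - 2 * b := by
      rw [div_le_iff₀ ha0]
      nlinarith [sq_nonneg (a - b)]
    linarith

lemma sum_q4 (M : ℕ) : ∑ m ∈ Finset.Icc 1 M, 1 / q4 m ^ 3 ≤ 4 * q4 M := by
  induction M with
  | zero => simp [q4]
  | succ k ih =>
    rw [Finset.sum_Icc_succ_top (by omega)]
    obtain ⟨a, ha⟩ : ∃ a, a = q4 ((k + 1 : ℕ) : ℝ) := ⟨_, rfl⟩
    obtain ⟨b, hb⟩ : ∃ b, b = q4 (k : ℝ) := ⟨_, rfl⟩
    rw [← ha]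
    rw [← hb] at ih
    have ha0 : 0 < a := by rw [ha]; exact q4_pos (by positivity)
    have hb0 : 0 ≤ b := by rw [hb]; exact q4_nonneg _
    have ha2 : a ^ 4 = k + 1 := by rw [ha, q4_pow (by positivity)]; push_cast; ring
    have hb2 : b ^ 4 = k := by rw [hb, q4_pow (by positivity)]
    have h1 : 1 / a ^ 3 ≤ 4 * a - 4 * b := by
      rw [div_le_iff₀ (by positivity)]
      have h2 : 4 * b * a ^ 3 ≤ b ^ 4 + 3 * a ^ 4 := by
        nlinarith [sq_nonneg (a ^ 2 - b ^ 2), sq_nonneg (a * (a - b)), sq_nonneg (a - b),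
          mul_nonneg (sq_nonneg (a - b)) (sq_nonneg (a + b)), mul_nonneg (sq_nonneg (a - b)) (sq_nonneg a)]
      nlinarith
    linarith

theorem t_CLN : S_RR → S_UU → S_DD → S_CLN := by
  intro hR _ _
  refine ⟨200, by norm_num, ?_⟩
  intro s E T a hs hT h1 hE hC ha0 ha1 hsum
  have hR' := hR
  obtain ⟨hpos, hup, _, hanti, hlog, _, _⟩ := hR'
  obtain ⟨hE1, hE2⟩ := E_facts hs h1 hE (RR_nonneg hpos T)
  have hsE0 : 0 ≤ s * E := by
    have : 0 ≤ E := by linarith
    positivity
  have hsE : s * E ≤ 1 := by linarith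
  have hT0 : (0 : ℝ) < T := by exact_mod_cast hT
  -- one value of `m`
  have hterm : ∀ m ∈ Finset.Icc 1 (2 * T), rr (m + T) + s * ∑ k ∈ Finset.Icc 1 T,
      a k * DD s m (T - k) ≤ 4 / T * (1 + Real.log (1 + (T : ℝ) / m)) := by
    intro m hm
    have hm1 := (mem_Icc.1 hm).1
    have hm0 : (0 : ℝ) < m := by exact_mod_cast hm1
    have hTm : 0 ≤ (T : ℝ) / m := by positivity
    obtain ⟨l, hl⟩ : ∃ l, l = Real.log (1 + (T : ℝ) / m) := ⟨_, rfl⟩
    have hl0 : 0 ≤ l := by rw [hl]; exact Real.log_nonneg (by linarith)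
    rw [← hl]
    have c1 : rr (m + T) ≤ 1 / T := by
      refine (hup _).trans (one_div_le_one_div_of_le hT0 ?_)
      push_cast
      linarith
    have c2 : ∀ k ∈ Finset.Icc 1 T, a k * DD s m (T - k) ≤
        2 * E / T * (1 + l) * a k + 1 / T * DD s m (T - k) := by
      intro k hk
      obtain ⟨hk1, hk2⟩ := mem_Icc.1 hk
      obtain ⟨d1, d2, d3, d4⟩ := DD_bounds hR hs h1 hE hsE m (T - k) hm1 (Nat.sub_le _ _)
      by_cases h : 2 * k ≤ T
      · have hn1 : 1 ≤ T - k := by omega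
        have e1 := d3 hn1
        have hn0 : (0 : ℝ) < ((T - k : ℕ) : ℝ) := by exact_mod_cast hn1
        have hn2 : (T : ℝ) ≤ 2 * ((T - k : ℕ) : ℝ) := by
          have : T ≤ 2 * (T - k) := by omega
          exact_mod_cast this
        have e2 : Real.log (1 + ((T - k : ℕ) : ℝ) / m) ≤ l := by
          rw [hl]
          refine Real.log_le_log (by positivity) ?_
          have : ((T - k : ℕ) : ℝ) ≤ T := by exact_mod_cast Nat.sub_le _ _
          have := div_le_div_of_nonneg_right this hm0.le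
          linarith
        have e3 : DD s m (T - k) ≤ 2 * E / T * (1 + l) := by
          refine e1.trans ?_
          have e4 : E / ((T - k : ℕ) : ℝ) ≤ 2 * E / T := by
            rw [div_le_div_iff₀ hn0 hT0]
            nlinarith
          have e5 : 0 ≤ Real.log (1 + ((T - k : ℕ) : ℝ) / m) := Real.log_nonneg (by
            have : 0 ≤ ((T - k : ℕ) : ℝ) / m := by positivity
            linarith)
          have e6 : 1 + s * E * Real.log (1 + ((T - k : ℕ) : ℝ) / m) ≤ 1 + l := by
            have : s * E * Real.log (1 + ((T - k : ℕ) : ℝ) / m) ≤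
                1 * Real.log (1 + ((T - k : ℕ) : ℝ) / m) := mul_le_mul_of_nonneg_right hsE e5
            linarith
          exact mul_le_mul e4 e6 (by positivity) (by positivity)
        have e7 := mul_le_mul_of_nonneg_left e3 (ha0 k)
        have e8 : 0 ≤ 1 / (T : ℝ) * DD s m (T - k) := by positivity
        linarith
      · have e1 : a k ≤ 1 / T := by
          refine (ha1 k hk1).trans ((hup k).trans (one_div_le_one_div_of_le hT0 ?_))
          have : T ≤ 2 * k := by omega
          have : (T : ℝ) ≤ 2 * k := by exact_mod_cast this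
          linarith
        have e2 := mul_le_mul_of_nonneg_right e1 d1
        have e3 : 0 ≤ 2 * E / T * (1 + l) * a k := by
          have := ha0 k
          positivity
        linarith
    have c3 : ∑ k ∈ Finset.Icc 1 T, DD s m (T - k) ≤ E * (1 / 2 + 1 / 2 * l) := by
      obtain ⟨_, _, _, d4⟩ := DD_bounds hR hs h1 hE hsE m T hm1 le_rfl
      rw [← hl] at d4
      refine le_trans ?_ d4
      have h3 : ∑ k ∈ Finset.Icc 1 T, DD s m (T - k) = ∑ i ∈ range T, DD s m i := by
        refine Finset.sum_nbij' (fun i => T - i) (fun k => T - k) ?_ ?_ ?_ ?_ ?_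
        · intro i hi
          rw [mem_Icc] at hi
          rw [mem_range]
          omega
        · intro k hk
          rw [mem_range] at hk
          rw [mem_Icc]
          omega
        · intro i hi
          rw [mem_Icc] at hi
          omega
        · intro k hk
          rw [mem_range] at hk
          omega
        · intro i _
          rfl
      rw [h3]
      exact Finset.sum_le_sum_of_subset_of_nonneg (Finset.range_mono (Nat.le_succ T))
        fun i _ _ => DD_nonneg hpos hs m i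
    have c4 := Finset.sum_le_sum c2
    rw [Finset.sum_add_distrib, ← Finset.mul_sum, ← Finset.mul_sum] at c4
    have c5 := mul_le_mul_of_nonneg_left c4 hs.le
    have c6 : s * (2 * E / T * (1 + l) * ∑ k ∈ Finset.Icc 1 T, a k) ≤ 2 / T * (1 + l) := by
      calc s * (2 * E / T * (1 + l) * ∑ k ∈ Finset.Icc 1 T, a k)
          = 2 / T * (1 + l) * (s * E * ∑ k ∈ Finset.Icc 1 T, a k) := by ring
        _ ≤ 2 / T * (1 + l) * 1 := mul_le_mul_of_nonneg_left hsum (by positivity)
        _ = _ := by ring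
    have c7 : s * (1 / T * ∑ k ∈ Finset.Icc 1 T, DD s m (T - k)) ≤ 1 / T * (1 + l) := by
      have e1 := mul_le_mul_of_nonneg_left c3 (show 0 ≤ s * (1 / T) by positivity)
      have e2 : s * (1 / (T : ℝ)) * (E * (1 / 2 + 1 / 2 * l)) = (s * E) * (1 / T * (1 + l) / 2) := by
        ring
      have e3 : (s * E) * (1 / T * (1 + l) / 2) ≤ 1 * (1 / T * (1 + l) / 2) :=
        mul_le_mul_of_nonneg_right hsE (by positivity)
      have e4 : 0 ≤ 1 / (T : ℝ) * (1 + l) := by positivity
      linarith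
    have c8 : 1 / (T : ℝ) ≤ 1 / T * (1 + l) := by
      have : 0 < 1 / (T : ℝ) := by positivity
      nlinarith
    have c9 : 4 / (T : ℝ) * (1 + l) = 1 / T * (1 + l) + 2 / T * (1 + l) + 1 / T * (1 + l) := by
      ring
    rw [c9]
    rw [mul_add] at c5
    linarith
  -- summation
  have hmain : ∀ m ∈ Finset.Icc 1 (2 * T), 1 / Real.sqrt m *
      (rr (m + T) + s * ∑ k ∈ Finset.Icc 1 T, a k * DD s m (T - k)) ≤
      4 / T * (1 / Real.sqrt m) + 16 / T * q4 T * (1 / q4 m ^ 3) := by
    intro m hm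
    have hm1 := (mem_Icc.1 hm).1
    have hm0 : (0 : ℝ) < m := by exact_mod_cast hm1
    have h2 := mul_le_mul_of_nonneg_left (hterm m hm) (show 0 ≤ 1 / Real.sqrt m by positivity)
    refine h2.trans ?_
    have h3 := log_le_q4 (show 0 ≤ (T : ℝ) / m by positivity)
    have h4 : q4 ((T : ℝ) / m) = q4 T / q4 m := by
      unfold q4
      rw [Real.sqrt_div hT0.le, Real.sqrt_div (Real.sqrt_nonneg _)]
    have hq := q4_pos hm0
    have h5 : 1 / Real.sqrt m = 1 / q4 m ^ 2 := by rw [q4_sq]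
    rw [h4] at h3
    have h6 : 1 / Real.sqrt m * (4 / T * (1 + Real.log (1 + (T : ℝ) / m))) ≤
        1 / Real.sqrt m * (4 / T * (1 + 4 * (q4 T / q4 m))) := by
      gcongr
    refine h6.trans (le_of_eq ?_)
    rw [h5]
    field_simp
    ring
  refine (Finset.sum_le_sum hmain).trans ?_
  rw [Finset.sum_add_distrib, ← Finset.mul_sum, ← Finset.mul_sum]
  have h2 := sum_sqrt (2 * T)
  have h3 := sum_q4 (2 * T)
  have hq := q4_pos hT0
  obtain ⟨r, hr⟩ : ∃ r, r = q4 T := ⟨_, rfl⟩
  rw [← hr] at hq ⊢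
  have hr4 : r ^ 4 = T := by rw [hr, q4_pow hT0.le]
  have hr2 : r ^ 2 = Real.sqrt T := by rw [hr, q4_sq]
  have h4 : Real.sqrt ((2 * T : ℕ) : ℝ) ≤ 2 * r ^ 2 := by
    rw [Real.sqrt_le_left (by positivity)]
    push_cast
    have : (2 * r ^ 2) ^ 2 = 4 * r ^ 4 := by ring
    rw [this, hr4]
    linarith
  have h5 : q4 ((2 * T : ℕ) : ℝ) ≤ 2 * r := by
    have h6 := q4_pow (show (0 : ℝ) ≤ ((2 * T : ℕ) : ℝ) by positivity)
    refine le_of_pow_le_pow_left₀ (n := 4) (by norm_num) (by positivity) ?_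
    rw [h6]
    push_cast
    have : (2 * r) ^ 4 = 16 * r ^ 4 := by ring
    rw [this, hr4]
    linarith
  rw [← hr2, ← hr4]
  have h6 : 4 / r ^ 4 * ∑ i ∈ Finset.Icc 1 (2 * T), 1 / Real.sqrt i ≤ 16 / r ^ 2 := by
    calc 4 / r ^ 4 * ∑ i ∈ Finset.Icc 1 (2 * T), 1 / Real.sqrt i
        ≤ 4 / r ^ 4 * (2 * (2 * r ^ 2)) := by
          refine mul_le_mul_of_nonneg_left ?_ (by positivity)
          linarith
      _ = _ := by field_simp; norm_num
  have h7 : 16 / r ^ 4 * r * ∑ i ∈ Finset.Icc 1 (2 * T), 1 / q4 i ^ 3 ≤ 128 / r ^ 2 := by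
    calc 16 / r ^ 4 * r * ∑ i ∈ Finset.Icc 1 (2 * T), 1 / q4 i ^ 3
        ≤ 16 / r ^ 4 * r * (4 * (2 * r)) := by
          refine mul_le_mul_of_nonneg_left ?_ (by positivity)
          linarith
      _ = _ := by field_simp; norm_num
  have h8 : 16 / r ^ 2 + 128 / r ^ 2 ≤ 200 / r ^ 2 := by
    rw [← add_div]
    exact div_le_div_of_nonneg_right (by norm_num) (by positivity)
  linarith

end Pool.Agent.H71.QC
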